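import Pool.Agent.H48.RN.Stmts2

set_option autoImplicit false
set_option linter.unusedSectionVars false

namespace Pool.RN

open Polynomial

/-- Integrality over `k[x]` gives integrality over `k(x)`. -/
theorem FDL_isIntegral {F : Type} [Field F] [Fintype F] {k : Type} [Field k] {z : EE k}
    (h : IsIntegral (Algebra.adjoin k {xx F k}) z) : IsIntegral (KK F k) z := by
  have hle : Algebra.adjoin k {xx F k} ≤ (KK F k).toSubalgebra :=
    IntermediateField.algebra_adjoin_le_adjoin k _
  obtain ⟨p, hp, hz⟩ := h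
  refine ⟨p.map (Subalgebra.inclusion hle).toRingHom, hp.map _, ?_⟩
  rw [eval₂_map]
  exact hz

theorem s_FDL {F k : Type} [Field F] [Fintype F] [Field k] [Algebra F k] [IsAlgClosed k]
    [Algebra.IsAlgebraic F k] (M : F[X]) (Y : (EE k)[X]) (hM : M.Monic) (hm : 1 ≤ M.natDegree)
    (hY : Good M Y) (hINT : S_INT F Y) : S_FDL F Y := by
  classical
  unfold S_FDL LL
  have hfin : {z | ∃ i, z = Y.coeff i}.Finite := by
    refine ((Finset.range (Y.natDegree + 2)).image (fun i => Y.coeff i)).finite_toSet.subset ?_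
    rintro z ⟨i, rfl⟩
    simp only [Finset.coe_image, Set.mem_image, Finset.coe_range, Set.mem_Iio]
    by_cases hi : i < Y.natDegree + 1
    · exact ⟨i, by omega, rfl⟩
    · refine ⟨Y.natDegree + 1, by omega, ?_⟩
      rw [coeff_eq_zero_of_natDegree_lt (by omega), coeff_eq_zero_of_natDegree_lt (by omega)]
  have : Finite {z | ∃ i, z = Y.coeff i} := hfin
  refine IntermediateField.finiteDimensional_adjoin ?_
  rintro z ⟨i, rfl⟩
  exact FDL_isIntegral (hINT i)

end Pool.RN
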