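import Pool.Agent.H48.RN.Stmts2

set_option autoImplicit false
set_option linter.unusedSectionVars false

namespace Pool.RN

open Polynomial

/-- Elements whose `q`-th powers are linear combinations of them are integral. -/
theorem INT_general {A B : Type} [CommRing A] [Field B] [Algebra A B] {m q : ℕ}
    (hq : 2 ≤ q) (y : Fin m → B)
    (h : ∀ i, ∃ c : Fin m → A, ∑ l, c l • y l = y i ^ q) (i : Fin m) : IsIntegral A (y i) := by
  classical
  set mon : (Fin m → ℕ) → B := fun e => ∏ j, y j ^ e j with hmon
  have mon_add : ∀ e f : Fin m → ℕ, mon (e + f) = mon e * mon f := by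
    intro e f
    simp only [hmon, Pi.add_apply, pow_add, Finset.prod_mul_distrib]
  have mon_single : ∀ (l : Fin m) (n : ℕ), mon (Pi.single l n) = y l ^ n := by
    intro l n
    simp only [hmon]
    rw [Finset.prod_eq_single l]
    · simp
    · intro j _ hj
      simp [Pi.single_eq_of_ne hj]
    · intro hl
      exact absurd (Finset.mem_univ l) hl
  set S : Set B := mon '' {e | ∀ j, e j < q} with hS
  have hfin : S.Finite := by
    apply Set.Finite.image
    have : {e : Fin m → ℕ | ∀ j, e j < q} = Set.pi Set.univ (fun _ => Set.Iio q) := by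
      ext e; simp
    rw [this]
    exact Set.Finite.pi fun _ => Set.finite_Iio q
  set N : Submodule A B := Submodule.span A S with hN
  have hall : ∀ (n : ℕ) (e : Fin m → ℕ), ∑ j, e j = n → mon e ∈ N := by
    intro n
    induction n using Nat.strong_induction_on with
    | _ n ih =>
      intro e he
      by_cases hlt : ∀ j, e j < q
      · exact Submodule.subset_span ⟨e, hlt, rfl⟩
      · push Not at hlt
        obtain ⟨l, hl⟩ := hlt
        have h1 : e = (e - Pi.single l q) + Pi.single l q := by
          ext j
          by_cases hj : j = l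
          · subst hj; simp [Nat.sub_add_cancel hl]
          · simp [Pi.single_eq_of_ne hj]
        set e' := e - Pi.single l q with he'
        obtain ⟨c, hc⟩ := h l
        rw [h1, mon_add, mon_single, ← hc, Finset.mul_sum]
        apply Submodule.sum_mem
        intro t _
        rw [mul_smul_comm]
        apply Submodule.smul_mem
        have h2 : mon e' * y t = mon (e' + Pi.single t 1) := by
          rw [mon_add, mon_single, pow_one]
        rw [h2]
        refine ih (∑ j, (e' + Pi.single t 1 : Fin m → ℕ) j) ?_ _ rfl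
        have h3 : ∑ j, e j = ∑ j, e' j + q := by
          conv_lhs => rw [h1]
          simp [Finset.sum_add_distrib]
        have h4 : ∑ j, (e' + Pi.single t 1 : Fin m → ℕ) j = ∑ j, e' j + 1 := by
          simp [Finset.sum_add_distrib]
        omega
  refine isIntegral_of_smul_mem_submodule N ?_ ?_ (y i) ?_
  · intro h0
    have h1 : mon 0 ∈ N := hall _ 0 rfl
    rw [h0, Submodule.mem_bot] at h1
    simp [hmon] at h1
  · exact Submodule.fg_span hfin
  · intro n hn
    rw [hN] at hn
    induction hn using Submodule.span_induction with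
    | mem x hx =>
      obtain ⟨e, -, rfl⟩ := hx
      have h2 : y i • mon e = mon (e + Pi.single i 1) := by
        rw [mon_add, mon_single, pow_one, smul_eq_mul, mul_comm]
      rw [h2]
      exact hall _ _ rfl
    | zero => simp
    | add a b _ _ ha hb => rw [smul_add]; exact N.add_mem ha hb
    | smul c a _ ha => rw [smul_comm]; exact N.smul_mem c ha

/-- The equation of a solution in coordinates. -/
theorem INT_eq {F : Type} [Field F] [Fintype F] {L : Type} [Field L] [Algebra F L] {M : F[X]}
    {x : L} {Y : L[X]} (hM : M.Monic) (hm : 1 ≤ M.natDegree) (hd : Y.degree < M.degree)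
    (h : M.map (algebraMap F L) ∣ tw F Y - (X - C x) * Y) (i : ℕ) :
    Y.coeff i ^ Fintype.card F = ((X - C x) * Y).coeff i -
      Y.coeff (M.natDegree - 1) * algebraMap F L (M.coeff i) := by
  set M' := M.map (algebraMap F L) with hM'
  have hM'm : M'.Monic := hM.map _
  have hdeg : M'.natDegree = M.natDegree := hM.natDegree_map _
  obtain ⟨Q, hQ⟩ := h
  have htw : ∀ n, (tw F Y).coeff n = Y.coeff n ^ Fintype.card F := by
    intro n
    unfold tw
    rw [coeff_map]
    rfl
  have hY0 : ∀ n, M.natDegree ≤ n → Y.coeff n = 0 := by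
    intro n hn
    apply coeff_eq_zero_of_degree_lt
    refine lt_of_lt_of_le hd ?_
    rw [degree_eq_natDegree hM.ne_zero]
    exact_mod_cast hn
  have hq0 : Fintype.card F ≠ 0 := Fintype.card_ne_zero
  have hQc : Q = C (Q.coeff 0) := by
    rw [← natDegree_eq_zero_iff_degree_le_zero.trans degree_le_zero_iff]
    by_contra hne
    have hQ0 : Q ≠ 0 := by
      rintro rfl
      simp at hne
    have h1 : (M' * Q).natDegree = M.natDegree + Q.natDegree := by
      rw [hM'm.natDegree_mul' hQ0, hdeg]
    have h2 : (M' * Q).natDegree ≤ M.natDegree := by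
      rw [← hQ]
      refine (natDegree_sub_le _ _).trans (max_le ?_ ?_)
      · rw [natDegree_le_iff_coeff_eq_zero]
        intro n hn
        rw [htw, hY0 n hn.le, zero_pow hq0]
      · rw [natDegree_le_iff_coeff_eq_zero]
        intro n hn
        obtain ⟨n, rfl⟩ : ∃ n', n = n' + 1 := ⟨n - 1, by omega⟩
        rw [sub_mul, coeff_sub, coeff_X_mul, coeff_C_mul, hY0 n (by omega), hY0 (n + 1) (by omega)]
        simp
    omega
  have h3 : ∀ n, (tw F Y - (X - C x) * Y).coeff n = M'.coeff n * Q.coeff 0 := by
    intro n
    rw [hQ, hQc, coeff_mul_C, coeff_C_zero]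
  have h4 := h3 M.natDegree
  rw [coeff_sub, htw, hY0 _ le_rfl, zero_pow hq0] at h4
  have h5 : M'.coeff M.natDegree = 1 := by
    rw [← hdeg]
    exact hM'm.coeff_natDegree
  have h6 : ((X - C x) * Y).coeff M.natDegree = Y.coeff (M.natDegree - 1) := by
    obtain ⟨n, hn⟩ : ∃ n', M.natDegree = n' + 1 := ⟨M.natDegree - 1, by omega⟩
    rw [hn, sub_mul, coeff_sub, coeff_X_mul, coeff_C_mul, hY0 (n + 1) (by omega)]
    simp
  rw [h5, h6, one_mul, zero_sub] at h4
  have h7 := h3 i
  rw [coeff_sub, htw, ← h4, hM', coeff_map] at h7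
  linear_combination h7

theorem s_INT {F k : Type} [Field F] [Fintype F] [Field k] [Algebra F k] [IsAlgClosed k]
    [Algebra.IsAlgebraic F k] (M : F[X]) (Y : (EE k)[X]) (hM : M.Monic) (hm : 1 ≤ M.natDegree)
    (hY : Good M Y) : S_INT F Y := by
  classical
  intro i
  by_cases hi : i < M.natDegree
  swap
  · have : Y.coeff i = 0 := by
      apply coeff_eq_zero_of_degree_lt
      refine lt_of_lt_of_le hY.sol.deg ?_
      rw [degree_eq_natDegree hM.ne_zero]
      exact_mod_cast not_lt.1 hi
    rw [this]
    exact isIntegral_zero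
  have hx : xx F k ∈ Algebra.adjoin k {xx F k} := Algebra.subset_adjoin rfl
  have key := INT_general (A := Algebra.adjoin k {xx F k}) (B := EE k) (m := M.natDegree)
    (q := Fintype.card F) Fintype.one_lt_card (fun j : Fin M.natDegree => Y.coeff j) ?_ ⟨i, hi⟩
  · exact key
  intro j
  have h1 := INT_eq hM hm hY.sol.deg hY.sol.eq (j : ℕ)
  rw [h1]
  set c1 : Algebra.adjoin k {xx F k} := ⟨xx F k, hx⟩ with hc1
  set c2 : Algebra.adjoin k {xx F k} :=
    algebraMap k (Algebra.adjoin k {xx F k}) (algebraMap F k (M.coeff j)) with hc2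
  refine ⟨fun l => (if (l : ℕ) + 1 = j then 1 else 0) - (if l = j then c1 else 0) -
    (if (l : ℕ) = M.natDegree - 1 then c2 else 0), ?_⟩
  simp only [sub_smul, Finset.sum_sub_distrib, ite_smul, zero_smul, one_smul]
  have e1 : (∑ l : Fin M.natDegree, if (l : ℕ) + 1 = j then Y.coeff (l : ℕ) else 0) =
      (X * Y).coeff j := by
    rcases Nat.eq_zero_or_pos (j : ℕ) with h0 | h0
    · rw [h0, coeff_X_mul_zero]
      apply Finset.sum_eq_zero
      intro l _
      rw [if_neg (by omega)]
    · obtain ⟨n, hn⟩ : ∃ n', (j : ℕ) = n' + 1 := ⟨j - 1, by omega⟩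
      have hn' : n < M.natDegree := by have := j.2; omega
      rw [hn, coeff_X_mul, Finset.sum_eq_single (⟨n, hn'⟩ : Fin M.natDegree)]
      · simp
      · intro l _ hl
        rw [if_neg]
        intro h
        apply hl
        ext
        simp only
        omega
      · intro h
        exact absurd (Finset.mem_univ _) h
  have e2 : (∑ l : Fin M.natDegree, if l = j then c1 • Y.coeff (l : ℕ) else 0) =
      xx F k * Y.coeff j := by
    rw [Finset.sum_ite_eq' Finset.univ j, if_pos (Finset.mem_univ _)]
    rfl
  have hlast : M.natDegree - 1 < M.natDegree := by omega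
  have e3 : (∑ l : Fin M.natDegree, if (l : ℕ) = M.natDegree - 1 then c2 • Y.coeff (l : ℕ) else 0) =
      Y.coeff (M.natDegree - 1) * algebraMap F (EE k) (M.coeff j) := by
    rw [Finset.sum_eq_single (⟨M.natDegree - 1, hlast⟩ : Fin M.natDegree)]
    · simp only [if_true]
      rw [mul_comm]
      rfl
    · intro l _ hl
      rw [if_neg]
      intro h
      apply hl
      ext
      exact h
    · intro h
      exact absurd (Finset.mem_univ _) h
  rw [e1, e2, e3, sub_mul, coeff_sub, coeff_C_mul]

end Pool.RN
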