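import Pool.Agent.H48.RN.Stmts1

set_option autoImplicit false
set_option linter.unusedSectionVars false

namespace Pool.RN

open Polynomial

section

variable {F : Type} [Field F] [Fintype F] {L : Type} [Field L] [Algebra F L]

theorem NMI_fixed {c : L} (hc : c ^ Fintype.card F = c) : ∃ a : F, algebraMap F L a = c := by
  have h1 : (X ^ Fintype.card F - X : F[X]) ≠ 0 :=
    FiniteField.X_pow_card_sub_X_ne_zero F Fintype.one_lt_card
  have hs : (X ^ Fintype.card F - X : F[X]).Splits := by
    rw [splits_iff_card_roots, FiniteField.roots_X_pow_card_sub_X,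
      FiniteField.X_pow_card_sub_X_natDegree_eq F Fintype.one_lt_card]
    rfl
  have h2 : c ∈ ((X ^ Fintype.card F - X : F[X]).map (algebraMap F L)).roots := by
    rw [mem_roots (by rwa [Polynomial.map_ne_zero_iff (algebraMap F L).injective])]
    simp [hc]
  rw [hs.roots_map] at h2
  obtain ⟨a, -, ha⟩ := Multiset.mem_map.1 h2
  exact ⟨a, ha⟩

theorem NMI_frob (f : F[X]) (x : L) :
    aeval (x ^ Fintype.card F) f = (aeval x f) ^ Fintype.card F := by
  have := Polynomial.aeval_algHom_apply (FiniteField.frobeniusAlgHom F L) x f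
  rw [FiniteField.coe_frobeniusAlgHom] at this
  exact this

theorem NMI_frob_pow (f : F[X]) (x : L) (i : ℕ) :
    aeval (x ^ Fintype.card F ^ i) f = (aeval x f) ^ Fintype.card F ^ i := by
  induction i with
  | zero => simp
  | succ i ih => rw [pow_succ, pow_mul, NMI_frob, ih, ← pow_mul]

theorem NMI_lift {P : L[X]} (h : P.map (FiniteField.frobeniusAlgHom F L).toRingHom = P) :
    ∃ Q : F[X], Q.map (algebraMap F L) = P := by
  have : P ∈ lifts (algebraMap F L) := by
    rw [lifts_iff_coeff_lifts]
    intro n
    have h1 := congrArg (fun R : L[X] => R.coeff n) h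
    simp only [coeff_map] at h1
    obtain ⟨a, ha⟩ := NMI_fixed (F := F) (c := P.coeff n) h1
    exact ⟨a, ha⟩
  exact (mem_lifts _).1 this

theorem NMI_Nrm_fixed {x : L} {j : ℕ} (hx : x ^ (Fintype.card F ^ j) = x) :
    (Nrm F x j).map (FiniteField.frobeniusAlgHom F L).toRingHom = Nrm F x j := by
  unfold Nrm
  rw [Polynomial.map_prod]
  have h1 : ∀ i ∈ Finset.range j, ((X - C (x ^ Fintype.card F ^ i)).map
      (FiniteField.frobeniusAlgHom F L).toRingHom : L[X]) =
      X - C (x ^ Fintype.card F ^ (i + 1)) := by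
    intro i _
    rw [Polynomial.map_sub, map_X, map_C]
    congr 2
    show (x ^ Fintype.card F ^ i) ^ Fintype.card F = _
    rw [← pow_mul, pow_succ]
  rw [Finset.prod_congr rfl h1]
  have h2 := Finset.prod_range_succ (fun i => (X - C (x ^ Fintype.card F ^ i) : L[X])) j
  have h3 := Finset.prod_range_succ' (fun i => (X - C (x ^ Fintype.card F ^ i) : L[X])) j
  rw [h2] at h3
  rw [hx] at h3
  simp only [pow_zero, pow_one] at h3
  exact (mul_right_cancel₀ (X_sub_C_ne_zero x) h3).symm

theorem NMI_Nrm_monic (x : L) (j : ℕ) : (Nrm F x j).Monic :=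
  monic_prod_of_monic _ _ fun _ _ => monic_X_sub_C _

theorem NMI_Nrm_natDegree (x : L) (j : ℕ) : (Nrm F x j).natDegree = j := by
  unfold Nrm
  rw [natDegree_prod_of_monic _ _ fun _ _ => monic_X_sub_C _]
  rw [Finset.sum_congr rfl fun i _ => natDegree_X_sub_C (x ^ Fintype.card F ^ i)]
  simp

/-- The main structure: `Nrm x j` comes from a power of the minimal polynomial. -/
theorem NMI_main {x : L} {j : ℕ} (hj : 1 ≤ j) (hx : x ^ (Fintype.card F ^ j) = x) :
    IsIntegral F x ∧ (minpoly F x).natDegree ∣ j ∧
      ((minpoly F x) ^ (j / (minpoly F x).natDegree)).map (algebraMap F L) = Nrm F x j := by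
  classical
  have hint : IsIntegral F x := by
    refine ⟨X ^ (Fintype.card F ^ j) - X, ?_, ?_⟩
    · exact monic_X_pow_sub (by
        rw [degree_X]
        exact_mod_cast Nat.one_lt_pow (by omega) Fintype.one_lt_card)
    · rw [eval₂_sub, eval₂_X_pow, eval₂_X, hx, sub_self]
  have hmono := minpoly.monic hint
  have hirr := minpoly.irreducible hint
  obtain ⟨Q, hQ⟩ := NMI_lift (NMI_Nrm_fixed hx)
  have hQm : Q.Monic := by
    have := NMI_Nrm_monic (F := F) x j
    rw [← hQ] at this
    exact monic_of_injective (algebraMap F L).injective this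
  have hQd : Q.natDegree = j := by
    rw [← natDegree_map_eq_of_injective (algebraMap F L).injective, hQ, NMI_Nrm_natDegree]
  -- every monic irreducible factor is the minimal polynomial
  have hfac : ∀ P ∈ UniqueFactorizationMonoid.normalizedFactors Q, P = minpoly F x := by
    intro P hP
    rw [UniqueFactorizationMonoid.mem_normalizedFactors_iff' hQm.ne_zero] at hP
    obtain ⟨hPi, hPn, hPd⟩ := hP
    have hPm : P.Monic := by
      rw [← hPn]
      exact monic_normalize hPi.ne_zero
    have h1 : P.map (algebraMap F L) ∣ Nrm F x j := by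
      rw [← hQ]
      exact Polynomial.map_dvd _ hPd
    have hsplit : (Nrm F x j).Splits := by
      unfold Nrm
      exact Splits.prod fun i _ => Splits.X_sub_C _
    have h2 : (P.map (algebraMap F L)).Splits :=
      hsplit.of_dvd (NMI_Nrm_monic x j).ne_zero h1
    have h3 : (P.map (algebraMap F L)).degree ≠ 0 := by
      rw [degree_map]
      exact hPi.degree_pos.ne'
    obtain ⟨z, hz⟩ := h2.exists_eval_eq_zero h3
    have h4 : eval z (Nrm F x j) = 0 := eval_eq_zero_of_dvd_of_eval_eq_zero h1 hz
    unfold Nrm at h4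
    rw [eval_prod, Finset.prod_eq_zero_iff] at h4
    obtain ⟨i, _, hi⟩ := h4
    simp only [eval_sub, eval_X, eval_C, sub_eq_zero] at hi
    rw [eval_map_algebraMap, hi, NMI_frob_pow] at hz
    have h5 : aeval x P = 0 := by
      exact pow_eq_zero_iff (by positivity) |>.1 hz
    exact (minpoly.eq_of_irreducible_of_monic hPi h5 hPm)
  have h6 : UniqueFactorizationMonoid.normalizedFactors Q =
      Multiset.replicate (Multiset.card (UniqueFactorizationMonoid.normalizedFactors Q))
        (minpoly F x) := Multiset.eq_replicate.2 ⟨rfl, hfac⟩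
  set e := Multiset.card (UniqueFactorizationMonoid.normalizedFactors Q) with he
  have h7 : Q = (minpoly F x) ^ e := by
    have h8 := UniqueFactorizationMonoid.prod_normalizedFactors hQm.ne_zero
    rw [h6, Multiset.prod_replicate] at h8
    exact (eq_of_monic_of_associated (hmono.pow e) hQm h8).symm
  have h9 : j = e * (minpoly F x).natDegree := by
    rw [← hQd, h7, natDegree_pow]
  have hd0 : 0 < (minpoly F x).natDegree := minpoly.natDegree_pos hint
  refine ⟨hint, ⟨e, by rw [h9, mul_comm]⟩, ?_⟩
  have h10 : j / (minpoly F x).natDegree = e := by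
    rw [h9, Nat.mul_div_cancel _ hd0]
  rw [h10, ← h7, hQ]

end

theorem s_NMI (F k : Type) [Field F] [Fintype F] [Field k] [Algebra F k] : S_NMI F k := by
  intro j hj x hx
  rw [mem_Fx hj] at hx
  obtain ⟨h1, h2, h3⟩ := NMI_main hj hx
  exact ⟨(minpoly.monic h1).pow _, h3⟩

end Pool.RN
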