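import Pool.Agent.H29.RN.NMI

set_option autoImplicit false
set_option linter.unusedSectionVars false

namespace Pool.RN

open Polynomial

section

variable {F : Type} [Field F] [Fintype F] {L : Type} [Field L] [Algebra F L]

theorem PTS_pow_degree {x : L} (hx : IsIntegral F x) :
    x ^ (Fintype.card F ^ (minpoly F x).natDegree) = x := by
  classical
  have : FiniteDimensional F (IntermediateField.adjoin F {x}) :=
    IntermediateField.adjoin.finiteDimensional hx
  have : Finite (IntermediateField.adjoin F {x}) := Module.finite_of_finite F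
  have : Fintype (IntermediateField.adjoin F {x}) := Fintype.ofFinite _
  have h1 : Fintype.card (IntermediateField.adjoin F {x}) =
      Fintype.card F ^ (minpoly F x).natDegree := by
    rw [Module.card_eq_pow_finrank (K := F) (V := IntermediateField.adjoin F {x}),
      IntermediateField.adjoin.finrank hx]
  have h2 := FiniteField.pow_card (IntermediateField.AdjoinSimple.gen F x)
  rw [h1] at h2
  have h3 := congrArg (algebraMap (IntermediateField.adjoin F {x}) L) h2
  rwa [map_pow, IntermediateField.AdjoinSimple.algebraMap_gen] at h3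

theorem PTS_pow_dvd {x : L} (hx : IsIntegral F x) {j : ℕ} (h : (minpoly F x).natDegree ∣ j) :
    x ^ (Fintype.card F ^ j) = x := by
  obtain ⟨e, rfl⟩ := h
  induction e with
  | zero => simp
  | succ e ih =>
    rw [Nat.mul_succ, pow_add, pow_mul, ih, PTS_pow_degree hx]

theorem PTS_cmul_pow {ψ : F[X] → ℂ} (h : CMul ψ) (P : F[X]) (n : ℕ) : ψ (P ^ n) = ψ P ^ n := by
  induction n with
  | zero => simp [h.one]
  | succ n ih => rw [pow_succ, h.mul, ih, pow_succ]

end

theorem s_PTS (F k : Type) [Field F] [Fintype F] [Field k] [Algebra F k] [IsAlgClosed k]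
    [Algebra.IsAlgebraic F k] : S_PTS F k := by
  classical
  intro ψ hψ j hj
  have hj0 : j ≠ 0 := by omega
  have hdisj : (↑(j.divisors) : Set ℕ).PairwiseDisjoint (fun d => Irr F d) := by
    intro a _ b _ hab
    rw [Function.onFun, Finset.disjoint_left]
    intro P hP hP'
    rw [mem_Irr] at hP hP'
    exact hab (hP.1.2.symm.trans hP'.1.2)
  have hL : aa ψ j = ∑ P ∈ j.divisors.biUnion (fun d => Irr F d),
      (P.natDegree : ℂ) * ψ P ^ (j / P.natDegree) := by
    unfold aa
    rw [Finset.sum_biUnion hdisj]
    refine Finset.sum_congr rfl fun d _ => Finset.sum_congr rfl fun P hP => ?_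
    rw [mem_Irr] at hP
    rw [hP.1.2]
  have hmaps : ∀ x ∈ Fx F k j, minpoly F x ∈ j.divisors.biUnion (fun d => Irr F d) := by
    intro x hx
    rw [mem_Fx hj] at hx
    obtain ⟨h1, h2, -⟩ := NMI_main hj hx
    rw [Finset.mem_biUnion]
    exact ⟨(minpoly F x).natDegree, Nat.mem_divisors.2 ⟨h2, hj0⟩,
      mem_Irr.2 ⟨⟨minpoly.monic h1, rfl⟩, minpoly.irreducible h1⟩⟩
  rw [hL, ← Finset.sum_fiberwise_of_maps_to hmaps]
  refine Finset.sum_congr rfl fun P hP => ?_
  rw [Finset.mem_biUnion] at hP
  obtain ⟨d, hd, hP⟩ := hP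
  rw [mem_Irr] at hP
  obtain ⟨⟨hPm, hPd⟩, hPi⟩ := hP
  have hsum : ∀ x ∈ (Fx F k j).filter (fun x => minpoly F x = P),
      ψ (nm F x j) = ψ P ^ (j / P.natDegree) := by
    intro x hx
    rw [Finset.mem_filter] at hx
    unfold nm
    rw [hx.2, PTS_cmul_pow hψ]
  rw [Finset.sum_congr rfl hsum, Finset.sum_const, nsmul_eq_mul]
  congr 1
  have hcard : (Fx F k j).filter (fun x => minpoly F x = P) =
      (P.map (algebraMap F k)).roots.toFinset := by
    ext x
    rw [Finset.mem_filter, mem_Fx hj, Multiset.mem_toFinset,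
      mem_roots (by
        rw [Ne, Polynomial.map_eq_zero_iff (algebraMap F k).injective]
        exact hPm.ne_zero), IsRoot.def, eval_map_algebraMap]
    constructor
    · rintro ⟨-, rfl⟩
      exact minpoly.aeval F x
    · intro h
      have hx : IsIntegral F x := Algebra.IsIntegral.isIntegral x
      have h1 : minpoly F x = P := (minpoly.eq_of_irreducible_of_monic hPi h hPm).symm
      refine ⟨?_, h1⟩
      apply PTS_pow_dvd hx
      rw [h1, hPd]
      exact (Nat.mem_divisors.1 hd).1
  rw [hcard]
  have hsep : (P.map (algebraMap F k)).Separable := by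
    have : P.Separable := PerfectField.separable_of_irreducible hPi
    exact this.map
  rw [Multiset.toFinset_card_of_nodup (nodup_roots hsep)]
  rw [← (IsAlgClosed.splits (P.map (algebraMap F k))).natDegree_eq_card_roots,
    natDegree_map_eq_of_injective (algebraMap F k).injective]

end Pool.RN
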