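import Pool.Agent.H29.RN.FDL

set_option autoImplicit false
set_option linter.unusedSectionVars false

namespace Pool.RN

open Polynomial

section

variable {F : Type} [Field F] [Fintype F] {k : Type} [Field k] [Algebra F k]

/-- `z ↦ z ^ (q ^ n)` -/
noncomputable def SEP_rho (F : Type) [Field F] [Fintype F] {L : Type} [Field L] [Algebra F L]
    (n : ℕ) : L →+* L := ((FiniteField.frobeniusAlgHom F L) ^ n : L →ₐ[F] L)

theorem SEP_rho_apply {L : Type} [Field L] [Algebra F L] (n : ℕ) (z : L) :
    SEP_rho F n z = z ^ (Fintype.card F ^ n) := by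
  unfold SEP_rho
  induction n generalizing z with
  | zero => simp
  | succ n ih =>
    have : ((FiniteField.frobeniusAlgHom F L) ^ (n + 1) : L →ₐ[F] L) z =
        ((FiniteField.frobeniusAlgHom F L) ^ n : L →ₐ[F] L) ((FiniteField.frobeniusAlgHom F L) z) := by
      rw [pow_succ]; rfl
    show ((FiniteField.frobeniusAlgHom F L) ^ (n + 1) : L →ₐ[F] L) z = _
    rw [this]
    have h2 := ih ((FiniteField.frobeniusAlgHom F L) z)
    refine h2.trans ?_
    show (z ^ Fintype.card F) ^ Fintype.card F ^ n = _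
    rw [← pow_mul, pow_succ, mul_comm]

theorem SEP_rho_algebraMap {L : Type} [Field L] [Algebra F L] (n : ℕ) (a : F) :
    SEP_rho F n (algebraMap F L a) = algebraMap F L a :=
  ((FiniteField.frobeniusAlgHom F L) ^ n : L →ₐ[F] L).commutes a

theorem SEP_map_rho {L : Type} [Field L] [Algebra F L] (n : ℕ) (M : F[X]) :
    (M.map (algebraMap F L)).map (SEP_rho F n) = M.map (algebraMap F L) := by
  rw [Polynomial.map_map]
  congr 1
  ext a
  exact SEP_rho_algebraMap n a

/-- `Y = U * tw Y mod M` with `U` over `k(x)`. -/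
theorem SEP_rel (hTRX : S_TRX F k) {M : F[X]} {Y : (EE k)[X]} (hM : M.Monic)
    (hY : IsSol M (xx F k) Y) : ∃ U : (KK F k)[X],
      Y = (U.map (algebraMap (KK F k) (EE k)) * tw F Y) %ₘ M.map (algebraMap F (EE k)) := by
  have hx : xx F k ∈ KK F k := IntermediateField.subset_adjoin k _ rfl
  set x' : KK F k := ⟨xx F k, hx⟩ with hx'
  set MK : (KK F k)[X] := (M.map (algebraMap F k)).map (algebraMap k (KK F k)) with hMK
  have hMK' : MK.map (algebraMap (KK F k) (EE k)) = M.map (algebraMap F (EE k)) := by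
    rw [hMK, Polynomial.map_map, Polynomial.map_map]
    rfl
  have hev : ¬ MK.IsRoot x' := by
    intro h
    have h1 : eval (xx F k) (M.map (algebraMap F (EE k))) = 0 := by
      rw [← hMK', eval_map, show xx F k = algebraMap (KK F k) (EE k) x' from rfl,
        eval₂_at_apply, h, map_zero]
    have h2 := (hTRX (M.map (algebraMap F k)) (by
      rw [Ne, Polynomial.map_eq_zero_iff (algebraMap F k).injective]
      exact hM.ne_zero)).1
    apply h2
    rw [aeval_def, ← eval_map, Polynomial.map_map]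
    exact h1
  have hcop : IsCoprime (X - C x') MK := by
    rw [(irreducible_X_sub_C x').coprime_iff_not_dvd, dvd_iff_isRoot]
    exact hev
  obtain ⟨U, V, hUV⟩ := hcop
  refine ⟨U, ?_⟩
  set M' := M.map (algebraMap F (EE k)) with hM'
  have hM'm : M'.Monic := hM.map _
  have h1 : U.map (algebraMap (KK F k) (EE k)) * (X - C (xx F k)) +
      V.map (algebraMap (KK F k) (EE k)) * M' = 1 := by
    have := congrArg (Polynomial.map (algebraMap (KK F k) (EE k))) hUV
    rw [Polynomial.map_add, Polynomial.map_mul, Polynomial.map_mul, Polynomial.map_sub, map_X,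
      map_C, hMK', Polynomial.map_one] at this
    exact this
  obtain ⟨Q, hQ⟩ := hY.eq
  have h2 : U.map (algebraMap (KK F k) (EE k)) * tw F Y = Y +
      M' * (U.map (algebraMap (KK F k) (EE k)) * Q - V.map (algebraMap (KK F k) (EE k)) * Y) := by
    linear_combination (U.map (algebraMap (KK F k) (EE k))) * hQ + Y * h1
  rw [h2]
  have hdeg : Y.degree < M'.degree := by
    rw [hM', degree_map]
    exact hY.deg
  rw [add_modByMonic, (modByMonic_eq_self_iff hM'm).2 hdeg]
  rw [(modByMonic_eq_zero_iff_dvd hM'm).2 (dvd_mul_right _ _), add_zero]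

/-- An element which is integral over `K` has a `q ^ n`-th power which is separable. -/
theorem SEP_contraction {K L : Type} [Field K] [Field L] [Algebra K L] (p a : ℕ) (ha : 1 ≤ a)
    [Fact p.Prime] [CharP K p] {z : L} (hz : IsIntegral K z) :
    ∃ n, ∀ n', n ≤ n' → IsSeparable K (z ^ ((p ^ a) ^ n')) := by
  have : ExpChar K p := ExpChar.prime (Fact.out)
  obtain ⟨g, hg, m, hm⟩ := (minpoly.irreducible hz).hasSeparableContraction p
  refine ⟨m, fun n' hn' => ?_⟩
  have h1 : aeval (z ^ (p ^ m)) g = 0 := by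
    have h2 := minpoly.aeval K z
    rwa [← hm, expand_aeval] at h2
  have h3 : IsSeparable K (z ^ (p ^ m)) := by
    exact Separable.of_dvd hg (minpoly.dvd K _ h1)
  have h4 : m ≤ a * n' := by nlinarith
  obtain ⟨c, hc⟩ := Nat.exists_eq_add_of_le h4
  have h5 : z ^ ((p ^ a) ^ n') = (z ^ (p ^ m)) ^ (p ^ c) := by
    rw [← pow_mul, ← pow_mul, ← pow_add, hc]
  rw [h5]
  rw [← mem_separableClosure_iff] at h3 ⊢
  exact pow_mem h3 _

end

theorem s_SEP {F k : Type} [Field F] [Fintype F] [Field k] [Algebra F k] [IsAlgClosed k]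
    [Algebra.IsAlgebraic F k] (M : F[X]) (Y : (EE k)[X]) (hM : M.Monic) (hm : 1 ≤ M.natDegree)
    (hY : Good M Y) (hTRX : S_TRX F k) (hINT : S_INT F Y) : S_SEP F Y := by
  classical
  obtain ⟨p, hp⟩ := CharP.exists F
  obtain ⟨⟨a, ha⟩, hpp, hcard⟩ := FiniteField.card F p
  have : Fact p.Prime := ⟨hpp⟩
  have : CharP k p := charP_of_injective_algebraMap (algebraMap F k).injective p
  have : CharP (KK F k) p := charP_of_injective_algebraMap (algebraMap k (KK F k)).injective p
  have hcard' : Fintype.card F = p ^ a := hcard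
  set T : IntermediateField (KK F k) (EE k) := separableClosure (KK F k) (EE k) with hT
  obtain ⟨U, hU⟩ := SEP_rel hTRX hM hY.sol
  have hstep : ∀ n, (∀ i, Y.coeff i ^ (Fintype.card F ^ (n + 1)) ∈ T) →
      ∀ i, Y.coeff i ^ (Fintype.card F ^ n) ∈ T := by
    intro n hn i
    set ρ : EE k →+* EE k := SEP_rho F n with hρ
    have h1 : Y.map ρ = ((U.map (algebraMap (KK F k) (EE k))).map ρ * (tw F Y).map ρ) %ₘ
        M.map (algebraMap F (EE k)) := by
      conv_lhs => rw [hU]
      rw [Polynomial.map_modByMonic _ (hM.map _), Polynomial.map_mul, SEP_map_rho]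
    have hA : (U.map (algebraMap (KK F k) (EE k))).map ρ ∈ lifts (algebraMap T (EE k)) := by
      rw [lifts_iff_coeff_lifts]
      intro j
      rw [coeff_map, coeff_map, hρ, SEP_rho_apply]
      refine ⟨⟨_, pow_mem (T.algebraMap_mem (U.coeff j)) _⟩, rfl⟩
    have hB : (tw F Y).map ρ ∈ lifts (algebraMap T (EE k)) := by
      rw [lifts_iff_coeff_lifts]
      intro j
      rw [coeff_map, hρ, SEP_rho_apply]
      have h2 : (tw F Y).coeff j = Y.coeff j ^ Fintype.card F := by
        unfold tw
        rw [coeff_map]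
        rfl
      rw [h2, ← pow_mul, ← pow_succ']
      exact ⟨⟨_, hn j⟩, rfl⟩
    obtain ⟨A, hA⟩ := (mem_lifts _).1 hA
    obtain ⟨B, hB⟩ := (mem_lifts _).1 hB
    set MT : T[X] := ((M.map (algebraMap F k)).map (algebraMap k (KK F k))).map
      (algebraMap (KK F k) T) with hMT
    have hMTm : MT.Monic := ((hM.map _).map _).map _
    have hMT' : MT.map (algebraMap T (EE k)) = M.map (algebraMap F (EE k)) := by
      rw [hMT, Polynomial.map_map, Polynomial.map_map, Polynomial.map_map]
      rfl
    rw [← hA, ← hB, ← hMT', ← Polynomial.map_mul, ← Polynomial.map_modByMonic _ hMTm] at h1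
    have h3 := congrArg (fun R : (EE k)[X] => R.coeff i) h1
    simp only [coeff_map] at h3
    rw [hρ, SEP_rho_apply] at h3
    rw [h3]
    exact ((A * B) %ₘ MT).coeff i |>.2
  have hbig : ∃ N, ∀ i, Y.coeff i ^ (Fintype.card F ^ N) ∈ T := by
    have h1 : ∀ i, ∃ n, ∀ n', n ≤ n' → IsSeparable (KK F k) (Y.coeff i ^ ((p ^ a) ^ n')) :=
      fun i => SEP_contraction p a ha (FDL_isIntegral (hINT i))
    choose n hn using h1
    refine ⟨(Finset.range (Y.natDegree + 1)).sup n, fun i => ?_⟩
    rw [hT, mem_separableClosure_iff, hcard']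
    by_cases hi : i < Y.natDegree + 1
    · exact hn i _ (Finset.le_sup (f := n) (Finset.mem_range.2 hi))
    · rw [coeff_eq_zero_of_natDegree_lt (by omega), zero_pow (pow_ne_zero _ (pow_ne_zero _ hpp.ne_zero))]
      rw [← mem_separableClosure_iff]
      exact zero_mem _
  have hall : ∀ N, (∀ i, Y.coeff i ^ (Fintype.card F ^ N) ∈ T) → ∀ i, Y.coeff i ∈ T := by
    intro N
    induction N with
    | zero => intro h i; simpa using h i
    | succ N ih => intro h; exact ih (hstep N h)
  obtain ⟨N, hN⟩ := hbig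
  unfold S_SEP LL
  rw [IntermediateField.isSeparable_adjoin_iff_isSeparable]
  rintro z ⟨i, rfl⟩
  rw [← mem_separableClosure_iff]
  exact hall N hN i

end Pool.RN
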